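import Pool.Agent.Helper28.T3.StA

set_option autoImplicit false

namespace Pool.Agent.Helper63.T3

open Pool.Agent.Helper28.T3

/-! CHR: the Jacobi symbol modulo a squarefree `d` with `d % 4 = 3` is a primitive odd Dirichlet character
(adapted from the module JAC of helper77). -/

private theorem jval (d : ℕ) [NeZero d] (a : ℤ) :
    jacobiSym (((a : ZMod d).val : ℕ) : ℤ) d = jacobiSym a d := by
  rw [ZMod.val_intCast, ← jacobiSym.mod_left]

private theorem jmul (d : ℕ) [NeZero d] (x y : ZMod d) :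
    jacobiSym (((x * y).val : ℕ) : ℤ) d = jacobiSym ((x.val : ℕ) : ℤ) d * jacobiSym ((y.val : ℕ) : ℤ) d := by
  have h : x * y = (((x.val : ℤ) * (y.val : ℤ) : ℤ) : ZMod d) := by
    push_cast
    rw [ZMod.natCast_zmod_val, ZMod.natCast_zmod_val]
  rw [h, jval, jacobiSym.mul_left]

private noncomputable def chi (d : ℕ) [NeZero d] : DirichletCharacter ℂ d where
  toFun x := ((jacobiSym ((x.val : ℕ) : ℤ) d : ℤ) : ℂ)
  map_one' := by
    have h : (1 : ZMod d) = ((1 : ℤ) : ZMod d) := by simp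
    rw [h, jval, jacobiSym.one_left, Int.cast_one]
  map_mul' x y := by
    rw [jmul, Int.cast_mul]
  map_nonunit' x hx := by
    have h : jacobiSym ((x.val : ℕ) : ℤ) d = 0 := by
      rw [jacobiSym.eq_zero_iff_not_coprime]
      intro hc
      apply hx
      rw [Int.gcd_natCast_natCast] at hc
      have := (ZMod.isUnit_iff_coprime x.val d).2 hc
      rwa [ZMod.natCast_zmod_val] at this
    rw [h, Int.cast_zero]

private theorem chi_int (d : ℕ) [NeZero d] (a : ℤ) :
    chi d (a : ZMod d) = ((jacobiSym a d : ℤ) : ℂ) := by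
  have : chi d (a : ZMod d) = ((jacobiSym (((a : ZMod d).val : ℕ) : ℤ) d : ℤ) : ℂ) := rfl
  rw [this, jval]

private theorem chi_prim_aux (d : ℕ) [NeZero d] (ho : Odd d) (hs : Squarefree d) (m : ℕ) (hm : m ∣ d)
    (hne : m ≠ d) (χ₀ : DirichletCharacter ℂ m) (hχ : chi d = DirichletCharacter.changeLevel hm χ₀) :
    False := by
  obtain ⟨k, hk⟩ := id hm
  have hk1 : k ≠ 1 := by
    rintro rfl
    exact hne (by omega)
  obtain ⟨p, hp, hpk⟩ := Nat.exists_prime_and_dvd hk1
  obtain ⟨l, rfl⟩ := hpk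
  have : Fact p.Prime := ⟨hp⟩
  have hd : d = p * (m * l) := by rw [hk]; ring
  have hcop : Nat.Coprime p (m * l) := by
    rw [hd] at hs
    exact Nat.coprime_of_squarefree_mul hs
  have hp2 : p ≠ 2 := by
    rintro rfl
    rw [hd] at ho
    exact absurd ho (by simp [parity_simps])
  obtain ⟨b, hb⟩ := FiniteField.exists_nonsquare (F := ZMod p) (by rwa [ZMod.ringChar_zmod_n])
  obtain ⟨a, ha1, ha2⟩ := Nat.chineseRemainder hcop b.val 1
  have hap : ((a : ℤ) : ZMod p) = b := by
    have := (ZMod.natCast_eq_natCast_iff a b.val p).2 ha1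
    rw [ZMod.natCast_zmod_val] at this
    exact_mod_cast this
  have hleg : jacobiSym (a : ℤ) p = -1 := by
    rw [← jacobiSym.legendreSym.to_jacobiSym, legendreSym.eq_neg_one_iff, hap]
    exact hb
  have hone : jacobiSym (a : ℤ) (m * l) = 1 := by
    have h : (a : ℤ) % ((m * l : ℕ) : ℤ) = 1 % ((m * l : ℕ) : ℤ) := by
      have := ha2
      unfold Nat.ModEq at this
      exact_mod_cast this
    rw [jacobiSym.mod_left' h, jacobiSym.one_left]
  have hml : m * l ≠ 0 := by
    intro h0
    rw [hd, h0, mul_zero] at ho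
    exact absurd ho (by decide)
  have hJ : jacobiSym (a : ℤ) d = -1 := by
    have : NeZero p := ⟨hp.ne_zero⟩
    have : NeZero (m * l) := ⟨hml⟩
    rw [show jacobiSym (a : ℤ) d = jacobiSym (a : ℤ) (p * (m * l)) by rw [← hd], jacobiSym.mul_right, hleg, hone]
    norm_num
  have hval : chi d ((a : ℤ) : ZMod d) = -1 := by
    rw [chi_int, hJ]; norm_num
  have hu : IsUnit (((a : ℤ) : ZMod d)) := by
    by_contra hn
    rw [MulChar.map_nonunit _ hn] at hval
    norm_num at hval
  obtain ⟨u, hu⟩ := hu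
  have hca : ((a : ℤ) : ZMod m) = 1 := by
    have h2 : a ≡ 1 [MOD m] := ha2.of_mul_right l
    have := (ZMod.natCast_eq_natCast_iff a 1 m).2 h2
    exact_mod_cast this
  have h1 : chi d ((a : ℤ) : ZMod d) = χ₀ (1 : ZMod m) := by
    rw [← hu, hχ, DirichletCharacter.changeLevel_eq_cast_of_dvd, hu, ZMod.cast_intCast hm, hca]
  rw [hval, map_one] at h1
  norm_num at h1

private theorem chi_prim (d : ℕ) [NeZero d] (ho : Odd d) (hs : Squarefree d) : (chi d).IsPrimitive := by
  rw [DirichletCharacter.isPrimitive_def]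
  by_contra hne
  obtain ⟨hm, χ₀, hχ⟩ := DirichletCharacter.factorsThrough_conductor (chi d)
  exact chi_prim_aux d ho hs _ hm hne χ₀ hχ

private theorem chi_odd (d : ℕ) [NeZero d] (h4 : d % 4 = 3) : (chi d).Odd := by
  have ho : Odd d := Nat.odd_iff.2 (by omega)
  have h : ((-1 : ℤ) : ZMod d) = -1 := by push_cast; rfl
  show chi d (-1) = -1
  rw [← h, chi_int, jacobiSym.at_neg_one ho, ZMod.χ₄_nat_three_mod_four h4]
  norm_num

theorem hCHR : StCHR := by
  intro d hs h4 _
  have ho : Odd d := Nat.odd_iff.2 (by omega)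
  exact ⟨chi d, chi_prim d ho hs, chi_odd d h4, chi_int d⟩

end Pool.Agent.Helper63.T3
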