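import Pool.Agent.Helper28.T3.StD

/-!
# Project T3, module QFD: quadratic fields of discriminant `-D` have the structure `QF D`
-/

set_option autoImplicit false

open scoped NumberField

namespace Pool.Agent.Helper63.T3

open Pool.Agent.Helper28.T3

private lemma newbasis {M : Type} [AddCommGroup M] (c : Module.Basis (Fin 2) ℤ M) (p q r s : ℤ)
    (h : p * s - q * r = 1) :
    ∃ b : Module.Basis (Fin 2) ℤ M, b 0 = p • c 0 + q • c 1 ∧ b 1 = r • c 0 + s • c 1 := by
  have hli : LinearIndependent ℤ ![p • c 0 + q • c 1, r • c 0 + s • c 1] := by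
    rw [LinearIndependent.pair_iff]
    intro m n hmn
    have h1 : (m * p + n * r) • c 0 + (m * q + n * s) • c 1 = 0 := by
      rw [← hmn]
      module
    have h2 := (Fintype.linearIndependent_iff.1 c.linearIndependent)
      ![m * p + n * r, m * q + n * s] (by simpa [Fin.sum_univ_two] using h1)
    have h3 := h2 0
    have h4 := h2 1
    simp only [Matrix.cons_val_zero, Matrix.cons_val_one] at h3 h4
    constructor
    · linear_combination s * h3 - r * h4 - m * h
    · linear_combination p * h4 - q * h3 - n * h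
  have hsp : ⊤ ≤ Submodule.span ℤ (Set.range ![p • c 0 + q • c 1, r • c 0 + s • c 1]) := by
    rw [← c.span_eq, Submodule.span_le]
    rintro _ ⟨i, rfl⟩
    rw [Matrix.range_cons, Matrix.range_cons, Matrix.range_empty, Set.union_empty,
      Set.singleton_union]
    refine Submodule.mem_span_pair.2 ?_
    fin_cases i
    · refine ⟨s, -q, ?_⟩
      have : s • (p • c 0 + q • c 1) + -q • (r • c 0 + s • c 1) = (p * s - q * r) • c 0 := by
        module
      rw [this, h, one_smul]
      rfl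
    · refine ⟨-r, p, ?_⟩
      have : -r • (p • c 0 + q • c 1) + p • (r • c 0 + s • c 1) = (p * s - q * r) • c 1 := by
        module
      rw [this, h, one_smul]
      rfl
  refine ⟨Module.Basis.mk hli hsp, ?_, ?_⟩
  · rw [Module.Basis.mk_apply]; rfl
  · rw [Module.Basis.mk_apply]; rfl

private lemma one_basis (K : Type) [Field K] [NumberField K] (h2 : Module.finrank ℚ K = 2) :
    ∃ b : Module.Basis (Fin 2) ℤ (𝓞 K), b 0 = 1 := by
  have hr : Module.finrank ℤ (𝓞 K) = 2 := by rw [NumberField.RingOfIntegers.rank, h2]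
  let c : Module.Basis (Fin 2) ℤ (𝓞 K) := Module.finBasisOfFinrankEq ℤ (𝓞 K) hr
  have h1 : (1 : 𝓞 K) = c.repr 1 0 • c 0 + c.repr 1 1 • c 1 := by
    have := c.sum_repr 1
    rw [Fin.sum_univ_two] at this
    exact this.symm
  have hcop : IsCoprime (c.repr 1 0) (c.repr 1 1) := by
    rw [Int.isCoprime_iff_gcd_eq_one]
    set g : ℕ := Int.gcd (c.repr 1 0) (c.repr 1 1) with hg
    obtain ⟨x, hx⟩ : (g : ℤ) ∣ c.repr 1 0 := Int.gcd_dvd_left ..
    obtain ⟨y, hy⟩ : (g : ℤ) ∣ c.repr 1 1 := Int.gcd_dvd_right ..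
    have h3 : algebraMap ℤ (𝓞 K) (g : ℤ) * (x • c 0 + y • c 1) = 1 := by
      rw [← Algebra.smul_def, smul_add, smul_smul, smul_smul, ← hx, ← hy, ← h1]
    have h4 : IsUnit (algebraMap ℤ (𝓞 K) (g : ℤ)) := IsUnit.of_mul_eq_one _ h3
    have h5 := h4.map (Algebra.norm ℤ)
    rw [Algebra.norm_algebraMap_of_basis c, Fintype.card_fin, isUnit_pow_iff two_ne_zero,
      Int.isUnit_iff_natAbs_eq] at h5
    simpa using h5
  obtain ⟨u, v, huv⟩ := hcop
  obtain ⟨b, hb0, -⟩ := newbasis c (c.repr 1 0) (c.repr 1 1) (-v) u (by linear_combination huv)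
  exact ⟨b, by rw [hb0, ← h1]⟩

theorem hQFD : StQFD := by
  intro D K _ _ h4 h2 hd
  obtain ⟨c, hc0⟩ := one_basis K h2
  set s : ℤ := c.repr (c 1 * c 1) 0 with hs
  set t : ℤ := c.repr (c 1 * c 1) 1 with ht
  have h1 : c 1 * c 1 = s • (1 : 𝓞 K) + t • c 1 := by
    have := c.sum_repr (c 1 * c 1)
    rw [Fin.sum_univ_two, hc0] at this
    exact this.symm
  have t0 : Algebra.trace ℤ (𝓞 K) (1 : 𝓞 K) = 2 := by
    have := Algebra.trace_algebraMap_of_basis c (1 : ℤ)
    simpa using this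
  have t1 : Algebra.trace ℤ (𝓞 K) (c 1) = t := by
    rw [Algebra.trace_eq_matrix_trace c, Matrix.trace_fin_two,
      Algebra.leftMulMatrix_eq_repr_mul, Algebra.leftMulMatrix_eq_repr_mul, hc0, mul_one,
      c.repr_self, ← ht]
    simp
  have t2 : Algebra.trace ℤ (𝓞 K) (c 1 * c 1) = 2 * s + t * t := by
    rw [h1, map_add, map_zsmul, map_zsmul, t0, t1, smul_eq_mul, smul_eq_mul]
    ring
  have h3 : t * t + 4 * s = -(D : ℤ) := by
    rw [← hd, ← NumberField.discr_eq_discr K c, Algebra.discr_def, Matrix.det_fin_two]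
    simp only [Algebra.traceMatrix_apply, Algebra.traceForm_apply, hc0, mul_one, one_mul, t0, t1, t2]
    ring
  have hto : t % 2 = 1 := by
    rcases Int.emod_two_eq_zero_or_one t with h | h
    · exfalso
      obtain ⟨k, hk⟩ : (2 : ℤ) ∣ t := Int.dvd_of_emod_eq_zero h
      rw [hk] at h3
      have h5 : 2 * k * (2 * k) = 4 * (k * k) := by ring
      omega
    · exact h
  obtain ⟨k, hk⟩ : ∃ k : ℤ, t = 2 * k + 1 := ⟨t / 2, by omega⟩
  obtain ⟨b, hb0, hb1⟩ := newbasis c 1 0 (-k) 1 (by ring)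
  rw [one_smul, zero_smul, add_zero, hc0] at hb0
  rw [one_smul, hc0] at hb1
  refine ⟨{ e := -(s + k * k + k), he := ?_, b := b, hb0 := hb0, hb1 := ?_ }⟩
  · rw [hk] at h3
    linear_combination -h3
  · have h6 : (k : 𝓞 K) = k • (1 : 𝓞 K) := by rw [zsmul_eq_mul, mul_one]
    rw [hb1]
    simp only [zsmul_eq_mul, mul_one] at h1 ⊢
    rw [hk] at h1
    push_cast at h1 ⊢
    linear_combination h1

end Pool.Agent.Helper63.T3
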